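import Pool.Agent.H937.QS.Stm3

/-! Project QS (helper937), part DIST (helper399). -/

set_option autoImplicit false

open scoped Matrix TensorProduct
open Pool.Agent.H937.QS
open Pool.Agent.W559.Wr
universe u
namespace Pool.Agent.H399.QS.DIST

section

variable {k K M : Type u} [Field k] [Field K] [Algebra k K] [Field M] [Algebra k M]

theorem mulM_tprod {n : ℕ} (e : Fin n → K →ₐ[k] M) (x : Fin n → K) :
    mulM e (PiTensorProduct.tprod k x) = ∏ i, e i (x i) := by
  unfold mulM
  rw [PiTensorProduct.lift.tprod]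
  simp [MultilinearMap.compLinearMap_apply, MultilinearMap.mkPiAlgebra_apply]

theorem mulM_single {n : ℕ} (e : Fin n → K →ₐ[k] M) (p : Fin n) (b : K) :
    mulM e (PiTensorProduct.tprod k (Function.update (fun _ => (1 : K)) p b)) = e p b := by
  rw [mulM_tprod, Finset.prod_eq_single p]
  · rw [Function.update_self]
  · intro i _ hi
    rw [Function.update_of_ne hi, map_one]
  · intro h
    exact absurd (Finset.mem_univ p) h

theorem inj_of {n : ℕ} (e : Fin n → K →ₐ[k] M) (he : LDis e) (b : K)
    (hb : ∀ c : k, algebraMap k K c ≠ b) : Function.Injective fun q => e q b := by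
  intro p q hpq
  by_contra hne
  have h1 : PiTensorProduct.tprod k (Function.update (fun _ : Fin n => (1 : K)) p b) =
      PiTensorProduct.tprod k (Function.update (fun _ : Fin n => (1 : K)) q b) := by
    apply he
    rw [mulM_single, mulM_single]
    exact hpq
  have hb1 : b ∉ Submodule.span k {(1 : K)} := by
    intro h
    obtain ⟨c, hc⟩ := Submodule.mem_span_singleton.1 h
    apply hb c
    rw [Algebra.algebraMap_eq_smul_one]
    exact hc
  obtain ⟨φ, hφ, hφ1⟩ := Submodule.exists_dual_map_eq_bot_of_notMem hb1 inferInstance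
  have h10 : (1 : K) ∉ (⊥ : Submodule k K) := by
    rw [Submodule.mem_bot]
    exact one_ne_zero
  obtain ⟨ψ, hψ, _⟩ := Submodule.exists_dual_map_eq_bot_of_notMem h10 inferInstance
  have hφ0 : φ 1 = 0 := by
    have h2 : φ 1 ∈ (Submodule.span k {(1 : K)}).map φ :=
      Submodule.mem_map_of_mem (Submodule.mem_span_singleton_self 1)
    rw [hφ1] at h2
    exact (Submodule.mem_bot k).1 h2
  let F : MultilinearMap k (fun _ : Fin n => K) k :=
    (MultilinearMap.mkPiAlgebra k (Fin n) k).compLinearMap
      fun j => if j = p then φ else ψ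
  have hF : ∀ x : Fin n → K, F x = ∏ j, (if j = p then φ else ψ) (x j) := fun x => by
    simp [F, MultilinearMap.compLinearMap_apply, MultilinearMap.mkPiAlgebra_apply]
  have h3 := congrArg (PiTensorProduct.lift F) h1
  rw [PiTensorProduct.lift.tprod, PiTensorProduct.lift.tprod, hF, hF] at h3
  have h4 : ∏ j, (if j = p then φ else ψ) (Function.update (fun _ : Fin n => (1 : K)) q b j) = 0 := by
    refine Finset.prod_eq_zero (Finset.mem_univ p) ?_
    rw [if_pos rfl, Function.update_of_ne hne]
    exact hφ0
  rw [h4, Finset.prod_eq_zero_iff] at h3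
  obtain ⟨j, _, hj⟩ := h3
  by_cases hjp : j = p
  · subst hjp
    rw [if_pos rfl, Function.update_self] at hj
    exact hφ hj
  · rw [if_neg hjp, Function.update_of_ne hjp] at hj
    exact hψ hj

theorem spmr_of (hM : ∀ x : M, ∃ c : k, algebraMap k M c = x) (L : IntermediateField k M)
    (D : Subalgebra k L) : SPMR k L D := by
  have hL : ∀ x : L, ∃ c : k, algebraMap k L c = x := by
    intro x
    obtain ⟨c, hc⟩ := hM x
    exact ⟨c, Subtype.ext hc⟩
  refine ⟨0, fun _ => 1, fun _ => one_ne_zero, fun i => ?_, ?_⟩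
  · have hsurj : Function.Bijective (Algebra.ofId k
        (D ⊔ Algebra.adjoin k (Set.range fun j : Fin (0 + 1) => (1 : L) / 1) : Subalgebra k L)) := by
      refine ⟨(Algebra.ofId k _).toRingHom.injective, fun x => ?_⟩
      obtain ⟨c, hc⟩ := hL x
      exact ⟨c, Subtype.ext hc⟩
    exact Algebra.Smooth.of_equiv (AlgEquiv.ofBijective _ hsurj)
  · rw [eq_top_iff]
    intro x _
    obtain ⟨c, rfl⟩ := hL x
    exact IntermediateField.algebraMap_mem _ c

end

theorem t_DIST : S_DIST.{u} := by
  intro k K M _ _ _ _ _ n e he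
  refine ⟨fun b hb => inj_of e he b hb, fun hk htop L D => spmr_of ?_ L D⟩
  have hbot : ⨆ i, (e i).fieldRange = (⊥ : IntermediateField k M) := by
    rw [eq_bot_iff]
    refine iSup_le fun i => ?_
    rintro _ ⟨x, rfl⟩
    obtain ⟨c, rfl⟩ := hk x
    rw [IntermediateField.mem_bot]
    exact ⟨c, ((e i).commutes c).symm⟩
  intro x
  have hx : x ∈ (⊥ : IntermediateField k M) := by
    rw [← hbot, htop]
    exact IntermediateField.mem_top
  exact IntermediateField.mem_bot.1 hx

end Pool.Agent.H399.QS.DIST
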